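import Pool.Graph.R_seed8.H713R3.ZA.TROOT

/-! Lifting through a polynomial (helper287, for helper211). -/

set_option autoImplicit false

open Metric Set Filter Topology Polynomial

namespace Pool.Agent.H287.AD211

open Pool.Agent.H713R3.ZA (root_holds)

theorem plift (P : ℂ[X]) (hP : 1 ≤ P.natDegree) (g : ℂ → ℂ) (y : ℂ) (R : ℝ) (hR : 0 < R)
    (hg : DifferentiableOn ℂ g (ball y R))
    (hd : ∀ z : ℂ, P.eval z ∈ g '' ball y R → (derivative P).eval z ≠ 0) (z₀ : ℂ)
    (hz₀ : P.eval z₀ = g y) :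
    ∃ G : ℂ → ℂ, DifferentiableOn ℂ G (ball y R) ∧ G y = z₀ ∧ ∀ x ∈ ball y R, P.eval (G x) = g x := by
  have key := root_holds ℂ (ball y R) (fun s z => P.eval z - g s) isOpen_ball
    (convex_ball y R) ?_ ?_ ?_ y (mem_ball_self hR) z₀ (by simp [hz₀])
  · obtain ⟨Z, h1, h2, h3, -⟩ := key
    exact ⟨Z, h1, h2, fun s hs => sub_eq_zero.mp (h3 s hs)⟩
  · have h1 : ContDiff ℂ 1 (fun z : ℂ => P.eval z) :=
      P.differentiable.contDiff
    have h2 : ContDiffOn ℂ 1 g (ball y R) := hg.contDiffOn isOpen_ball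
    refine (h1.comp contDiff_snd).contDiffOn.sub (h2.comp contDiff_fst.contDiffOn ?_)
    intro p hp
    exact hp.1
  · intro K hK hKc M
    obtain ⟨B, hB⟩ := hKc.exists_bound_of_continuousOn (hg.continuousOn.mono hK)
    have h1 : Tendsto (fun z : ℂ => ‖P.eval z‖) (comap norm atTop) atTop :=
      P.tendsto_norm_atTop (natDegree_pos_iff_degree_pos.1 hP) tendsto_comap
    have h2 := h1.eventually_gt_atTop (M + B)
    rw [eventually_comap] at h2
    obtain ⟨B', hB'⟩ := h2.exists_forall_of_atTop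
    refine ⟨B', fun s hs z hz => ?_⟩
    by_contra hlt
    have h3 := hB' ‖z‖ (not_le.1 hlt).le z rfl
    have h4 := norm_add_le (P.eval z - g s) (g s)
    rw [sub_add_cancel] at h4
    have h5 := hB s hs
    linarith
  · intro s hs z hz
    have h1 : deriv (fun z => P.eval z - g s) z = (derivative P).eval z := by
      rw [deriv_sub_const, Polynomial.deriv]
    rw [h1]
    exact hd z ⟨s, hs, (sub_eq_zero.mp hz).symm⟩

end Pool.Agent.H287.AD211
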