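import Pool.Agent.H211.AD.Stm4
import Pool.Agent.H287.AD211.PL0

/-! Project AD (helper211): `S_PLIFT` (helper287). -/

set_option autoImplicit false

namespace Pool.Agent.H287.AD211

open Pool.Agent.H211.AD

theorem t_PLIFT : S_PLIFT := by
  intro P hP g y R hR hg hd z₀ hz₀
  exact plift P hP g y R hR hg hd z₀ hz₀

end Pool.Agent.H287.AD211
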